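import Pool.Agent.helper10.CH.SpecZ

/-!
# Row chz:CZT: the trivial character
-/

set_option autoImplicit false

open NumberField Complex

namespace Pool.Agent.UN

theorem CZT_bot (K : Type) [Field K] [NumberField K] : tc K ⊥ = 0 := by
  unfold tc; rw [if_pos rfl]

theorem CZT_ne (K : Type) [Field K] [NumberField K] (a : Ideal (𝓞 K)) (ha : a ≠ ⊥) : tc K a = 1 := by
  unfold tc; rw [if_neg ha]

theorem CZT_mul (K : Type) [Field K] [NumberField K] (a b : Ideal (𝓞 K)) : tc K (a * b) = tc K a * tc K b := by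
  by_cases ha : a = ⊥
  · rw [ha, Ideal.bot_mul, CZT_bot, zero_mul]
  · by_cases hb : b = ⊥
    · rw [hb, Ideal.mul_bot, CZT_bot, mul_zero]
    · have hab : a * b ≠ ⊥ := by
        intro h
        rcases Ideal.mul_eq_bot.1 h with h | h
        · exact ha h
        · exact hb h
      rw [CZT_ne K _ hab, CZT_ne K _ ha, CZT_ne K _ hb, one_mul]

theorem CZT_Ar (K : Type) [Field K] [NumberField K] (x : 𝓞 K) : Ar (fun _ : InfinitePlace K => 0) (fun _ => 0) x = 1 := by
  unfold Ar
  refine Finset.prod_eq_one (fun w _ => ?_)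
  rw [zpow_zero, mul_one]
  simp [ph]

theorem CZT_HM (K : Type) [Field K] [NumberField K] : HM ⊤ (tc K) := by
  refine ⟨top_ne_bot, CZT_bot K, CZT_ne K _ top_ne_bot, CZT_mul K, ?_, ?_⟩
  · intro a ha _
    rw [CZT_ne K a ha, norm_one]
  · intro a ha
    exact absurd sup_top_eq (fun h => ha (h a))

theorem CZT : CZT_stmt := by
  intro K _ _
  refine ⟨?_, CZT_HM K, ?_⟩
  · refine ⟨top_ne_bot, CZT_bot K, CZT_ne K _ top_ne_bot, CZT_mul K, (CZT_HM K).unit, (CZT_HM K).zero, fun _ _ => rfl, ?_, ?_⟩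
    · intro x y hx hy _ _
      rw [CZT_Ar, CZT_Ar, CZT_ne K _ (by rwa [Ne, Ideal.span_singleton_eq_bot]), CZT_ne K _ (by rwa [Ne, Ideal.span_singleton_eq_bot])]
    · intro g hg
      exact absurd hg not_top_lt
  · intro f χ h hχ
    refine ⟨?_, ?_⟩
    · by_contra hf
      have h1 := h.zero f (by rwa [sup_idem])
      rw [hχ f h.f0] at h1
      exact one_ne_zero h1
    · funext a
      by_cases ha : a = ⊥
      · rw [ha, h.bot, CZT_bot]
      · rw [hχ a ha, CZT_ne K a ha]

end Pool.Agent.UN
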