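import Pool.Agent.helper17.CH.SpecV

/-!
# Row VMV of project CH (MP_5628fe_nt): Vinogradov's mean value theorem
-/

set_option autoImplicit false

namespace Pool.Agent.CH

open Finset ArithmeticFunction

private lemma VMV_rho {k : ℝ} (hk : 2 ≤ k) (n : ℕ) :
    0 ≤ (1 - 1 / k) ^ n ∧ (1 - 1 / k) ^ n ≤ 1 ∧ 1 - n / k ≤ (1 - 1 / k) ^ n := by
  have h0 : 0 < 1 / k := by positivity
  have h1 : 1 / k ≤ 1 := by rw [div_le_one (by linarith)]; linarith
  refine ⟨pow_nonneg (by linarith) _, pow_le_one₀ (by linarith) (by linarith), ?_⟩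
  have h2 := one_add_mul_le_pow (a := -(1 / k)) (by linarith) n
  have e1 : 1 - (n : ℝ) / k = 1 + n * (-(1 / k)) := by ring
  have e2 : (1 : ℝ) - 1 / k = 1 + -(1 / k) := by ring
  rw [e1, e2]
  exact h2

private lemma VMV_const {k r : ℕ} (hk : 2 ≤ k) :
    1 + 2 * (k * (r + 1)) + 3 * k + k ^ 2 + 2 * k * r + k ^ 5 + 100 * k ^ 5 * r ^ 2 + 1 ≤
      100 * k ^ 5 * (r + 1) ^ 2 := by
  have h1 : k ≤ k ^ 5 := Nat.le_self_pow (by norm_num) k
  have h2 : k ^ 2 ≤ k ^ 5 := Nat.pow_le_pow_right (by omega) (by norm_num)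
  have h3 : 1 ≤ k ^ 5 := Nat.one_le_pow _ _ (by omega)
  have h4 : k * r ≤ k ^ 5 * r := Nat.mul_le_mul_right _ h1
  have h5 : 100 * k ^ 5 * (r + 1) ^ 2 = 100 * k ^ 5 * r ^ 2 + 200 * (k ^ 5 * r) + 100 * k ^ 5 := by
    ring
  have h6 : 1 + 2 * (k * (r + 1)) + 3 * k + k ^ 2 + 2 * k * r + k ^ 5 + 100 * k ^ 5 * r ^ 2 + 1 =
      100 * k ^ 5 * r ^ 2 + (2 + 4 * (k * r) + 5 * k + k ^ 2 + k ^ 5) := by ring
  rw [h5, h6]
  omega

private lemma VMV_le_two_pow (k : ℕ) : k ≤ 2 ^ k := Nat.lt_two_pow_self.le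

private lemma VMV_fact (k : ℕ) : k.factorial ≤ 2 ^ (k ^ 2) := by
  calc k.factorial ≤ k ^ k := Nat.factorial_le_pow k
    _ ≤ (2 ^ k) ^ k := Nat.pow_le_pow_left (VMV_le_two_pow k) k
    _ = 2 ^ (k ^ 2) := by rw [← pow_mul, sq]

private lemma VMV_card (X : ℕ) : #(Ioc (0 : ℤ) (X : ℤ)) = X := by simp

theorem VMV (h1 : REC_stmt) (h2 : JB_stmt) : VMV_stmt := by
  obtain ⟨-, -, -, -, hJ5, hJ6⟩ := h2
  intro k r X hk hr hX
  induction r, hr using Nat.le_induction generalizing X with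
  | base =>
    have h := hJ5 k (Ioc 0 (X : ℤ))
    rw [VMV_card] at h
    have hk0 : (0 : ℝ) < k := by exact_mod_cast (by omega : 0 < k)
    have hexp : (2 * (k : ℝ) * ((1 : ℕ) : ℝ) - k * (k + 1) / 2 + (k : ℝ) ^ 2 / 2 *
        (1 - 1 / (k : ℝ)) ^ 1) = (k : ℝ) := by
      push_cast
      field_simp
      ring
    rw [hexp, Real.rpow_natCast, mul_one]
    unfold JV
    have h3 : ((JJ k k (Ioc 0 (X : ℤ)) : ℕ) : ℝ) ≤ ((k.factorial * X ^ k : ℕ) : ℝ) := by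
      exact_mod_cast h
    refine h3.trans ?_
    push_cast
    have h4 : (k.factorial : ℝ) ≤ 2 ^ (100 * k ^ 5 * 1 ^ 2) := by
      have h5 : k.factorial ≤ 2 ^ (100 * k ^ 5 * 1 ^ 2) := by
        refine (VMV_fact k).trans (Nat.pow_le_pow_right (by norm_num) ?_)
        have : k ^ 2 ≤ k ^ 5 := Nat.pow_le_pow_right (by omega) (by norm_num)
        nlinarith
      exact_mod_cast h5
    exact mul_le_mul_of_nonneg_right h4 (by positivity)
  | succ r hr ih =>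
    have hkR : (2 : ℝ) ≤ k := by exact_mod_cast hk
    have hk0 : (0 : ℝ) < k := by linarith
    have hrR : (1 : ℝ) ≤ r := by exact_mod_cast hr
    have hx1 : (1 : ℝ) ≤ X := by exact_mod_cast hX
    have hx0 : (0 : ℝ) < X := by linarith
    obtain ⟨a0, a1, a2⟩ := VMV_rho hkR (r + 1)
    obtain ⟨b0, b1, b2⟩ := VMV_rho hkR r
    have e1 : (1 - 1 / (k : ℝ)) ^ (r + 1) = (1 - 1 / (k : ℝ)) ^ r - 1 / k * (1 - 1 / (k : ℝ)) ^ r := by
      rw [pow_succ]; ring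
    set ρ : ℝ := (1 - 1 / (k : ℝ)) ^ r with hρ
    set E1 : ℝ := 2 * (k : ℝ) * ((r + 1 : ℕ) : ℝ) - k * (k + 1) / 2 + (k : ℝ) ^ 2 / 2 *
        (1 - 1 / (k : ℝ)) ^ (r + 1) with hE1
    set E0 : ℝ := 2 * (k : ℝ) * (r : ℝ) - k * (k + 1) / 2 + (k : ℝ) ^ 2 / 2 * ρ with hE0
    have hrel : E1 = E0 + 2 * k - k / 2 * ρ := by
      rw [hE1, hE0, e1]
      push_cast
      field_simp
      ring
    -- lower bounds of exponents
    have hE1low : 2 * (k : ℝ) * ((r + 1 : ℕ) : ℝ) - k * (k + 1) / 2 ≤ E1 := by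
      rw [hE1]
      have : 0 ≤ (k : ℝ) ^ 2 / 2 * (1 - 1 / (k : ℝ)) ^ (r + 1) := by positivity
      linarith
    have hE0low : (3 / 2 : ℝ) * k * r - k / 2 ≤ E0 := by
      have h3 : (k : ℝ) ^ 2 / 2 * (1 - r / k) ≤ (k : ℝ) ^ 2 / 2 * ρ :=
        mul_le_mul_of_nonneg_left b2 (by positivity)
      have h4 : (k : ℝ) ^ 2 / 2 * (1 - r / k) = k ^ 2 / 2 - k * r / 2 := by
        field_simp
      rw [hE0]
      nlinarith
    have hE0pos : 0 ≤ E0 := by nlinarith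
    have hE0up : E0 ≤ 2 * k * r := by
      rw [hE0]
      have : (k : ℝ) ^ 2 / 2 * ρ ≤ (k : ℝ) ^ 2 / 2 * 1 := mul_le_mul_of_nonneg_left b1 (by positivity)
      nlinarith
    have hE1big : 2 * (k : ℝ) - 2 ≤ E1 := by
      rw [hrel]
      have : (k : ℝ) / 2 * ρ ≤ k / 2 * 1 := mul_le_mul_of_nonneg_left b1 (by positivity)
      nlinarith
    have hmul : k * (r + 1) = k * r + k := by ring
    rcases le_or_gt (2 ^ (2 * k ^ 3)) X with hXl | hXs
    · -- main case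
      obtain ⟨p, hp, hkp, hXp, hpX, hJ⟩ := h1 (k * r) k X (Nat.mul_pos (by omega) hr) hk hXl
      have hq0 : (0 : ℝ) < p := by exact_mod_cast hp.pos
      have hq1 : (1 : ℝ) ≤ p := by exact_mod_cast hp.one_lt.le
      -- p ≤ 2 ^ (k ^ 3) * X ^ (1/k)
      have hpk : (p : ℝ) ≤ 2 ^ (k ^ 3) * (X : ℝ) ^ ((k : ℝ)⁻¹) := by
        have h3 : ((p : ℝ) ^ k) ≤ 2 ^ (k ^ 4) * (X : ℝ) := by exact_mod_cast hpX
        have h4 := Real.rpow_le_rpow (by positivity) h3 (by positivity : (0 : ℝ) ≤ (k : ℝ)⁻¹)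
        rw [Real.pow_rpow_inv_natCast hq0.le (by omega), Real.mul_rpow (by positivity) hx0.le] at h4
        have h5 : ((2 : ℝ) ^ (k ^ 4)) ^ ((k : ℝ)⁻¹) = 2 ^ (k ^ 3) := by
          rw [show k ^ 4 = k ^ 3 * k by ring, pow_mul,
            Real.pow_rpow_inv_natCast (by positivity) (by omega)]
        rw [h5] at h4
        exact h4
      have hpx : (p : ℝ) ≤ X := by
        have h3 : (2 : ℝ) ^ (k ^ 3) ≤ (X : ℝ) ^ (1 / 2 : ℝ) := by
          have h4 : ((2 : ℝ) ^ (k ^ 3)) ^ 2 ≤ (X : ℝ) := by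
            rw [← pow_mul, mul_comm]
            exact_mod_cast hXl
          rw [← Real.sqrt_eq_rpow]
          exact Real.le_sqrt_of_sq_le h4
        have h4 : (X : ℝ) ^ ((k : ℝ)⁻¹) ≤ (X : ℝ) ^ (1 / 2 : ℝ) := by
          apply Real.rpow_le_rpow_of_exponent_le hx1
          rw [one_div]
          exact inv_anti₀ (by norm_num) hkR
        calc (p : ℝ) ≤ 2 ^ (k ^ 3) * (X : ℝ) ^ ((k : ℝ)⁻¹) := hpk
          _ ≤ (X : ℝ) ^ (1 / 2 : ℝ) * (X : ℝ) ^ (1 / 2 : ℝ) := by gcongr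
          _ = X := by
            rw [← Real.rpow_add hx0]
            norm_num
      have hY : (((X / p + 1 : ℕ) : ℕ) : ℝ) ≤ 2 * (X / p) := by
        push_cast
        have h3 : (((X / p : ℕ)) : ℝ) ≤ (X : ℝ) / p := Nat.cast_div_le
        have h4 : (1 : ℝ) ≤ (X : ℝ) / p := by rw [le_div_iff₀ hq0]; linarith
        linarith
      have hih := ih (X / p + 1) (Nat.le_add_left 1 _)
      have hJr : ((JV (k * r) k (X / p + 1) : ℕ) : ℝ) ≤ 2 ^ (100 * k ^ 5 * r ^ 2) *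
          (2 ^ (2 * k * r) * ((X : ℝ) ^ E0 * (p : ℝ) ^ (-E0))) := by
        refine hih.trans ?_
        have h3 : (((X / p + 1 : ℕ) : ℕ) : ℝ) ^ E0 ≤ (2 * ((X : ℝ) / p)) ^ E0 :=
          Real.rpow_le_rpow (by positivity) hY hE0pos
        have h4 : (2 * ((X : ℝ) / p)) ^ E0 = 2 ^ E0 * ((X : ℝ) ^ E0 * (p : ℝ) ^ (-E0)) := by
          rw [Real.mul_rpow (by norm_num) (by positivity), Real.div_rpow hx0.le hq0.le,
            Real.rpow_neg hq0.le, div_eq_mul_inv]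
        have h5 : (2 : ℝ) ^ E0 ≤ 2 ^ (2 * k * r) := by
          rw [← Real.rpow_natCast]
          apply Real.rpow_le_rpow_of_exponent_le (by norm_num)
          push_cast
          exact hE0up
        calc (2 : ℝ) ^ (100 * k ^ 5 * r ^ 2) * (((X / p + 1 : ℕ) : ℕ) : ℝ) ^ E0
            ≤ 2 ^ (100 * k ^ 5 * r ^ 2) * (2 ^ E0 * ((X : ℝ) ^ E0 * (p : ℝ) ^ (-E0))) := by
              rw [← h4]; gcongr
          _ ≤ _ := by gcongr
      -- powers of p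
      have hEp : (0 : ℝ) ≤ k ^ 2 - k ^ 2 / 2 * ρ := by
        have : (k : ℝ) ^ 2 / 2 * ρ ≤ (k : ℝ) ^ 2 / 2 * 1 :=
          mul_le_mul_of_nonneg_left b1 (by positivity)
        nlinarith [sq_nonneg (k : ℝ)]
      have hpp : (p : ℝ) ^ (2 * (k * r)) * (p : ℝ) ^ (k * (k - 1) / 2) * (p : ℝ) ^ (-E0) ≤
          2 ^ (k ^ 5) * (X : ℝ) ^ (k - k / 2 * ρ : ℝ) := by
        have h3 : ((k * (k - 1) / 2 : ℕ) : ℝ) ≤ (k : ℝ) * (k - 1) / 2 := by
          have h4 : ((k * (k - 1) / 2 : ℕ) : ℝ) ≤ ((k * (k - 1) : ℕ) : ℝ) / (2 : ℕ) := Nat.cast_div_le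
          rw [Nat.cast_mul, Nat.cast_sub (by omega)] at h4
          push_cast at h4
          exact h4
        calc (p : ℝ) ^ (2 * (k * r)) * (p : ℝ) ^ (k * (k - 1) / 2) * (p : ℝ) ^ (-E0)
            = (p : ℝ) ^ (((2 * (k * r) : ℕ) : ℝ) + ((k * (k - 1) / 2 : ℕ) : ℝ) + -E0) := by
              rw [Real.rpow_add hq0, Real.rpow_add hq0, Real.rpow_natCast, Real.rpow_natCast]
          _ ≤ (p : ℝ) ^ ((k : ℝ) ^ 2 - k ^ 2 / 2 * ρ) := by
              apply Real.rpow_le_rpow_of_exponent_le hq1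
              rw [hE0]
              push_cast
              nlinarith
          _ ≤ (2 ^ (k ^ 3) * (X : ℝ) ^ ((k : ℝ)⁻¹)) ^ ((k : ℝ) ^ 2 - k ^ 2 / 2 * ρ) :=
              Real.rpow_le_rpow hq0.le hpk hEp
          _ = (2 ^ (k ^ 3)) ^ ((k : ℝ) ^ 2 - k ^ 2 / 2 * ρ) * (X : ℝ) ^ (k - k / 2 * ρ : ℝ) := by
              rw [Real.mul_rpow (by positivity) (by positivity), ← Real.rpow_mul hx0.le]
              congr 2
              field_simp
          _ ≤ 2 ^ (k ^ 5) * (X : ℝ) ^ (k - k / 2 * ρ : ℝ) := by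
              gcongr
              have h5 : (k : ℝ) ^ 2 - k ^ 2 / 2 * ρ ≤ k ^ 2 := by
                have : 0 ≤ (k : ℝ) ^ 2 / 2 * ρ := by positivity
                linarith
              rw [← Real.rpow_natCast (2 : ℝ) (k ^ 3), ← Real.rpow_mul (by norm_num),
                ← Real.rpow_natCast (2 : ℝ) (k ^ 5)]
              apply Real.rpow_le_rpow_of_exponent_le (by norm_num)
              rw [Nat.cast_pow, Nat.cast_pow]
              calc (k : ℝ) ^ 3 * ((k : ℝ) ^ 2 - (k : ℝ) ^ 2 / 2 * ρ) ≤ (k : ℝ) ^ 3 * (k : ℝ) ^ 2 :=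
                    mul_le_mul_of_nonneg_left h5 (by positivity)
                _ = (k : ℝ) ^ 5 := by ring
      have hxx : (X : ℝ) ^ k * (X : ℝ) ^ E0 * (X : ℝ) ^ (k - k / 2 * ρ : ℝ) = (X : ℝ) ^ E1 := by
        rw [← Real.rpow_natCast (X : ℝ) k, ← Real.rpow_add hx0, ← Real.rpow_add hx0]
        congr 1
        rw [hrel]
        ring
      -- constants
      have hC : (((k * r + k).choose k : ℕ) : ℝ) ≤ 2 ^ (k * (r + 1)) := by
        have h3 : (k * r + k).choose k ≤ 2 ^ (k * r + k) := Nat.choose_le_two_pow _ _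
        rw [hmul]
        exact_mod_cast h3
      have hk2 : (k : ℝ) ≤ 2 ^ k := by exact_mod_cast VMV_le_two_pow k
      have hkf : (k.factorial : ℝ) ≤ 2 ^ (k ^ 2) := by exact_mod_cast VMV_fact k
      have hJ' : ((JV (k * (r + 1)) k X : ℕ) : ℝ) ≤
          2 * (((k * r + k).choose k : ℕ) : ℝ) ^ 2 * (k : ℝ) ^ 3 *
            ((p : ℝ) ^ (2 * (k * r)) * (X : ℝ) ^ k * (k.factorial * (p : ℝ) ^ (k * (k - 1) / 2)) *
              ((JV (k * r) k (X / p + 1) : ℕ) : ℝ)) +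
          16 * (k : ℝ) ^ (2 * (k * r + k)) * (X : ℝ) ^ (2 * k - 2) := by
        rw [hmul]
        exact_mod_cast hJ
      have hT1 : 2 * (((k * r + k).choose k : ℕ) : ℝ) ^ 2 * (k : ℝ) ^ 3 *
            ((p : ℝ) ^ (2 * (k * r)) * (X : ℝ) ^ k * (k.factorial * (p : ℝ) ^ (k * (k - 1) / 2)) *
              ((JV (k * r) k (X / p + 1) : ℕ) : ℝ)) ≤
          2 ^ (1 + 2 * (k * (r + 1)) + 3 * k + k ^ 2 + 2 * k * r + k ^ 5 + 100 * k ^ 5 * r ^ 2) *
            (X : ℝ) ^ E1 := by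
        calc 2 * (((k * r + k).choose k : ℕ) : ℝ) ^ 2 * (k : ℝ) ^ 3 *
            ((p : ℝ) ^ (2 * (k * r)) * (X : ℝ) ^ k * (k.factorial * (p : ℝ) ^ (k * (k - 1) / 2)) *
              ((JV (k * r) k (X / p + 1) : ℕ) : ℝ))
            ≤ 2 * (2 ^ (k * (r + 1))) ^ 2 * (2 ^ k) ^ 3 *
            ((p : ℝ) ^ (2 * (k * r)) * (X : ℝ) ^ k * (2 ^ (k ^ 2) * (p : ℝ) ^ (k * (k - 1) / 2)) *
              (2 ^ (100 * k ^ 5 * r ^ 2) *
                (2 ^ (2 * k * r) * ((X : ℝ) ^ E0 * (p : ℝ) ^ (-E0))))) := by gcongr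
          _ = (2 * (2 ^ (k * (r + 1))) ^ 2 * (2 ^ k) ^ 3 * 2 ^ (k ^ 2) * 2 ^ (100 * k ^ 5 * r ^ 2) *
                2 ^ (2 * k * r)) * ((X : ℝ) ^ k * (X : ℝ) ^ E0) *
                ((p : ℝ) ^ (2 * (k * r)) * (p : ℝ) ^ (k * (k - 1) / 2) * (p : ℝ) ^ (-E0)) := by
              ring
          _ ≤ (2 * (2 ^ (k * (r + 1))) ^ 2 * (2 ^ k) ^ 3 * 2 ^ (k ^ 2) * 2 ^ (100 * k ^ 5 * r ^ 2) *
                2 ^ (2 * k * r)) * ((X : ℝ) ^ k * (X : ℝ) ^ E0) *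
                (2 ^ (k ^ 5) * (X : ℝ) ^ (k - k / 2 * ρ : ℝ)) := by gcongr
          _ = (2 * (2 ^ (k * (r + 1))) ^ 2 * (2 ^ k) ^ 3 * 2 ^ (k ^ 2) * 2 ^ (100 * k ^ 5 * r ^ 2) *
                2 ^ (2 * k * r) * 2 ^ (k ^ 5)) *
                ((X : ℝ) ^ k * (X : ℝ) ^ E0 * (X : ℝ) ^ (k - k / 2 * ρ : ℝ)) := by ring
          _ = _ := by
              rw [hxx]
              congr 1
              simp only [pow_add, pow_one, ← pow_mul]
              rw [show k * (r + 1) * 2 = 2 * (k * (r + 1)) by ring, show k * 3 = 3 * k by ring]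
              ring
      have hT2 : 16 * (k : ℝ) ^ (2 * (k * r + k)) * (X : ℝ) ^ (2 * k - 2) ≤
          2 ^ (4 + k * (2 * (k * r + k))) * (X : ℝ) ^ E1 := by
        have h3 : (X : ℝ) ^ (2 * k - 2) ≤ (X : ℝ) ^ E1 := by
          rw [← Real.rpow_natCast]
          apply Real.rpow_le_rpow_of_exponent_le hx1
          rw [Nat.cast_sub (by omega)]
          push_cast
          exact hE1big
        have h4 : (k : ℝ) ^ (2 * (k * r + k)) ≤ 2 ^ (k * (2 * (k * r + k))) := by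
          rw [pow_mul 2 k]
          exact pow_le_pow_left₀ (by positivity) hk2 _
        calc 16 * (k : ℝ) ^ (2 * (k * r + k)) * (X : ℝ) ^ (2 * k - 2)
            ≤ 16 * 2 ^ (k * (2 * (k * r + k))) * (X : ℝ) ^ E1 := by gcongr
          _ = _ := by rw [pow_add]; norm_num
      have hc1 := VMV_const (r := r) hk
      have hc2 : 4 + k * (2 * (k * r + k)) + 1 ≤ 100 * k ^ 5 * (r + 1) ^ 2 := by
        have h3 : k ^ 2 ≤ k ^ 5 := Nat.pow_le_pow_right (by omega) (by norm_num)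
        have h4 : 1 ≤ k ^ 5 := Nat.one_le_pow _ _ (by omega)
        have h5 : k ^ 2 * (r + 1) ≤ k ^ 5 * (r + 1) := Nat.mul_le_mul_right _ h3
        have h6 : k ^ 5 * (r + 1) ≤ k ^ 5 * (r + 1) ^ 2 :=
          Nat.mul_le_mul_left _ (Nat.le_self_pow (by norm_num) _)
        have h7 : 4 + k * (2 * (k * r + k)) + 1 = 5 + 2 * (k ^ 2 * (r + 1)) := by ring
        have h8 : 1 ≤ k ^ 5 * (r + 1) ^ 2 := Nat.mul_pos h4 (by positivity)
        have h9 : 100 * k ^ 5 * (r + 1) ^ 2 = 100 * (k ^ 5 * (r + 1) ^ 2) := by ring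
        rw [h7, h9]
        omega
      have hfin : (2 : ℝ) ^ (1 + 2 * (k * (r + 1)) + 3 * k + k ^ 2 + 2 * k * r + k ^ 5 +
          100 * k ^ 5 * r ^ 2) + 2 ^ (4 + k * (2 * (k * r + k))) ≤ 2 ^ (100 * k ^ 5 * (r + 1) ^ 2) := by
        have g1 : (2 : ℝ) ^ (1 + 2 * (k * (r + 1)) + 3 * k + k ^ 2 + 2 * k * r + k ^ 5 +
          100 * k ^ 5 * r ^ 2) * 2 ≤ 2 ^ (100 * k ^ 5 * (r + 1) ^ 2) := by
          rw [← pow_succ]
          exact pow_le_pow_right₀ (by norm_num) hc1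
        have g2 : (2 : ℝ) ^ (4 + k * (2 * (k * r + k))) * 2 ≤ 2 ^ (100 * k ^ 5 * (r + 1) ^ 2) := by
          rw [← pow_succ]
          exact pow_le_pow_right₀ (by norm_num) hc2
        linarith
      calc ((JV (k * (r + 1)) k X : ℕ) : ℝ) ≤ _ := hJ'
        _ ≤ _ := add_le_add hT1 hT2
        _ = (2 ^ (1 + 2 * (k * (r + 1)) + 3 * k + k ^ 2 + 2 * k * r + k ^ 5 +
          100 * k ^ 5 * r ^ 2) + 2 ^ (4 + k * (2 * (k * r + k)))) * (X : ℝ) ^ E1 := by ring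
        _ ≤ 2 ^ (100 * k ^ 5 * (r + 1) ^ 2) * (X : ℝ) ^ E1 := by gcongr
    · -- small X
      have h := hJ6 (k * (r + 1)) k (Ioc 0 (X : ℤ))
      rw [VMV_card] at h
      have h3 : ((JV (k * (r + 1)) k X : ℕ) : ℝ) ≤ (X : ℝ) ^ (2 * (k * (r + 1))) := by
        unfold JV
        exact_mod_cast h
      refine h3.trans ?_
      have hXs' : (X : ℝ) ≤ 2 ^ (2 * k ^ 3) := by exact_mod_cast hXs.le
      calc (X : ℝ) ^ (2 * (k * (r + 1)))
          = (X : ℝ) ^ (k * (k + 1) / 2 : ℝ) *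
              (X : ℝ) ^ (2 * (k : ℝ) * ((r + 1 : ℕ) : ℝ) - k * (k + 1) / 2) := by
            rw [← Real.rpow_add hx0, ← Real.rpow_natCast]
            congr 1
            push_cast
            ring
        _ ≤ (2 ^ (2 * k ^ 3)) ^ (k * (k + 1) / 2 : ℝ) * (X : ℝ) ^ E1 := by
            gcongr
        _ ≤ 2 ^ (100 * k ^ 5 * (r + 1) ^ 2) * (X : ℝ) ^ E1 := by
            gcongr
            rw [← Real.rpow_natCast, ← Real.rpow_mul (by norm_num), ← Real.rpow_natCast]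
            apply Real.rpow_le_rpow_of_exponent_le (by norm_num)
            push_cast
            have g1 : (k : ℝ) ^ 4 ≤ k ^ 5 := pow_le_pow_right₀ (by linarith) (by norm_num)
            have g2 : (1 : ℝ) ≤ (r + 1) ^ 2 := by nlinarith
            have g3 : (k : ℝ) ^ 5 * 1 ≤ k ^ 5 * (r + 1) ^ 2 := by gcongr
            have g4 : 2 * (k : ℝ) ^ 3 * (k * (k + 1) / 2) = k ^ 5 + k ^ 4 := by ring
            rw [g4]
            nlinarith

end Pool.Agent.CH
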